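import Pool.Agent.P.MP_9167e9_an.StG

/-! TW: the tree with the translates of the lifted cores is a small cancellation wall space. -/

noncomputable section
open scoped Classical

namespace Pool.Agent.P.MP_9167e9_an

namespace Tw

variable {P : Prm} {F : Set (Cell P)}

theorem conn_tr {S : Type} {T : Set (FreeGroup S)} (h : Conn T) (δ : FreeGroup S) :
    Conn {x | x * δ⁻¹ ∈ T} := by
  intro x hx y hy
  have h1 := h _ hx _ hy
  have key : ∀ a b, Relation.ReflTransGen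
      (fun a b => b ∈ T ∧ ∃ s, b = FreeGroup.of s * a ∨ a = FreeGroup.of s * b) a b →
      Relation.ReflTransGen (fun a b => b ∈ {x : FreeGroup S | x * δ⁻¹ ∈ T} ∧
        ∃ s, b = FreeGroup.of s * a ∨ a = FreeGroup.of s * b) (a * δ) (b * δ) := by
    intro a b hab
    induction hab with
    | refl => exact Relation.ReflTransGen.refl
    | tail _ hs ih =>
      obtain ⟨hb, s, hs⟩ := hs
      refine ih.tail ⟨by simpa using hb, s, ?_⟩
      rcases hs with hs | hs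
      · left; rw [hs, mul_assoc]
      · right; rw [hs, mul_assoc]
  simpa using key _ _ h1

theorem ex_tc (Q : TC F) : ∃ c hc δ, Q = tc F c hc δ := by
  obtain ⟨⟨c, T⟩, hc, δ, hT⟩ := Q
  refine ⟨c, hc, δ, ?_⟩
  dsimp only at hT
  subst hT
  rfl

/-- The translate of a cell. -/
def acT (Q : TC F) (g : FreeGroup P.S) : TC F :=
  ⟨(Q.1.1, {x | x * g⁻¹ ∈ Q.1.2}), Q.2.1, by
    obtain ⟨δ, h⟩ := Q.2.2
    refine ⟨δ * g, ?_⟩
    ext x
    simp only [h, Set.mem_ofPred_eq, mul_inv_rev, mul_assoc]⟩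

theorem acT_tc (c : Cell P) (hc : c ∈ F) (δ g : FreeGroup P.S) :
    acT (tc F c hc δ) g = tc F c hc (δ * g) := by
  apply Subtype.ext
  simp only [acT, tc, Set.mem_ofPred_eq, mul_inv_rev, mul_assoc]

/-- The rotation group of a cell. -/
def KT (Q : TC F) : Subgroup (FreeGroup P.S) where
  carrier := {k | ∀ δ, Q.1.2 = {x | Q.1.1.Qc (x * δ⁻¹)} → δ * k * δ⁻¹ ∈ Q.1.1.Kg}
  one_mem' := by intro δ _; simp
  mul_mem' := by
    intro a b ha hb δ h
    have := mul_mem (ha δ h) (hb δ h)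
    simpa [mul_assoc] using this
  inv_mem' := by
    intro a ha δ h
    have := inv_mem (ha δ h)
    simpa [mul_assoc] using this

theorem KT_iff {c : Cell P} (hb : BasOut c) (hc : c ∈ F) (δ k : FreeGroup P.S) :
    k ∈ KT (tc F c hc δ) ↔ δ * k * δ⁻¹ ∈ c.Kg := by
  constructor
  · intro h; exact h δ rfl
  · intro h δ' h'
    have hp : δ' * δ⁻¹ ∈ c.Pg := (hb.same δ δ').1 h'
    have := hb.conjK _ (inv_mem hp) _ h
    change _ ∈ c.Kg
    simpa [mul_assoc] using this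

theorem K_le_P {c : Cell P} (hb : BasOut c) {k : FreeGroup P.S} (h : k ∈ c.Kg) : k ∈ c.Pg := by
  obtain ⟨h1, h2⟩ := (hb.memK k).1 h
  exact (hb.memP k).2 ⟨h1, congrArg Prod.fst h2⟩

theorem tc_eq {c : Cell P} (hb : BasOut c) (hc : c ∈ F) {δ δ' : FreeGroup P.S}
    (h : δ' * δ⁻¹ ∈ c.Pg) : tc F c hc δ = tc F c hc δ' := by
  apply Subtype.ext
  simp only [tc, (hb.same δ δ').2 h]

/-- If all walls between `u` and `v` cross a connected set then `u` lies in the set. -/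
theorem mem_of_cross {S : Type} {w : PreWS (FreeGroup S) (FreeGroup S × S)} (ht : TreeOut w)
    {T : Set (FreeGroup S)} (hT : Conn T) {u v : FreeGroup S} (huv : u ≠ v)
    (h : ∀ a ∈ w.W u v, w.Cross a T) : u ∈ T := by
  obtain ⟨z, ⟨x, s⟩, h1, h2, -⟩ := w.step u v huv
  have h3 := w.car_step _ _ _ h1
  rw [ht.car_eq] at h3
  obtain ⟨h4, h5⟩ := (ht.cross T hT x s).1 (h _ h2)
  rcases h3 with rfl | h3
  · exact h4
  · rw [Set.mem_singleton_iff.1 h3]; exact h5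

theorem overlap (hA : Adm F) (hB : ∀ c ∈ F, BasOut c) {Q Q' : TC F} (hne : Q ≠ Q')
    {u v : FreeGroup P.S} (hu : u ∈ Q.1.2) (hv : v ∈ Q.1.2) (hu' : u ∈ Q'.1.2)
    (hv' : v ∈ Q'.1.2) : nr (v * u⁻¹) ≤ Q.1.1.L := by
  obtain ⟨c, hc, δ, rfl⟩ := ex_tc Q
  obtain ⟨c', hc', δ', rfl⟩ := ex_tc Q'
  change c.Qc (u * δ⁻¹) at hu
  change c.Qc (v * δ⁻¹) at hv
  change c'.Qc (u * δ'⁻¹) at hu'
  change c'.Qc (v * δ'⁻¹) at hv'
  change _ ≤ c.L
  have e1 : v * u⁻¹ * (u * δ⁻¹) = v * δ⁻¹ := by group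
  have e2 : v * u⁻¹ * (u * δ'⁻¹) = v * δ'⁻¹ := by group
  rcases lt_trichotomy c.R c'.R with h | h | h
  · exact (hA.pc1 c hc c' hc' h _ _ _ hu (e1 ▸ hv) ((hA.ok c' hc').sub _ hu')
      (e2 ▸ (hA.ok c' hc').sub _ hv')).le
  · obtain rfl := hA.inj c hc c' hc' h
    by_contra hlt
    have h1 := (hA.ok c hc).pc2 _ _ _ hu hu' (e1 ▸ hv) (e2 ▸ hv') (not_le.1 hlt).le
    have h2 := ((hB c hc).memP _).2 ((hB c hc).div _ _ hu hu' h1)
    have e3 : (u * δ⁻¹)⁻¹ * (u * δ'⁻¹) = δ * δ'⁻¹ := by group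
    rw [e3] at h2
    exact hne (tc_eq (hB c hc) hc h2).symm
  · have h1 := hA.pc1 c' hc' c hc h _ _ _ hu' (e2 ▸ hv') ((hA.ok c hc).sub _ hu)
      (e1 ▸ (hA.ok c hc).sub _ hv)
    exact h1.le.trans (Nat.pow_le_pow_left h.le 15)

theorem conn_cell (hB : ∀ c ∈ F, BasOut c) (Q : TC F) : Q.1.2.Nonempty ∧ Conn Q.1.2 := by
  obtain ⟨c, hc, δ, rfl⟩ := ex_tc Q
  refine ⟨⟨δ, ?_⟩, conn_tr (hB c hc).conn δ⟩
  change c.Qc (δ * δ⁻¹)
  rw [mul_inv_cancel]
  exact Cell.Qc.one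

theorem L_pos (hA : Adm F) (Q : TC F) : 1 ≤ Q.1.1.L :=
  Nat.one_le_pow _ _ (by have := (hA.ok _ Q.2.1).R_big; omega)

/-- The wall space of the tree with its cells. -/
def ws (hA : Adm F) (hB : ∀ c ∈ F, BasOut c)
    (w : PreWS (FreeGroup P.S) (FreeGroup P.S × P.S)) (ht : TreeOut w) (hp : PreOut w) :
    WS (FreeGroup P.S) (FreeGroup P.S × P.S) (TC F) where
  toPreWS := w
  cell Q := Q.1.2
  π Q x := (ht.gate _ (conn_cell hB Q).1 (conn_cell hB Q).2 x).choose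
  π_gate Q x := (ht.gate _ (conn_cell hB Q).1 (conn_cell hB Q).2 x).choose_spec
  ac := acT
  ac_one Q := by
    obtain ⟨c, hc, δ, rfl⟩ := ex_tc Q
    rw [acT_tc, mul_one]
  ac_mul Q g g' := by
    obtain ⟨c, hc, δ, rfl⟩ := ex_tc Q
    rw [acT_tc, acT_tc, acT_tc, mul_assoc]
  cell_ac Q x g h := by
    change x * g * g⁻¹ ∈ Q.1.2
    simpa using h
  K := KT
  K_ac Q k g h := by
    obtain ⟨c, hc, δ, rfl⟩ := ex_tc Q
    rw [acT_tc, KT_iff (hB c hc)]
    rw [KT_iff (hB c hc)] at h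
    simpa [mul_assoc] using h
  K_fix Q k h := by
    obtain ⟨c, hc, δ, rfl⟩ := ex_tc Q
    rw [KT_iff (hB c hc)] at h
    rw [acT_tc]
    exact (tc_eq (hB c hc) hc (K_le_P (hB c hc) h)).symm
  g Q := Q.1.1.g
  θ Q := Q.1.1.L
  δ Q := Q.1.1.sz
  g_ac _ _ := rfl
  θ_ac _ _ := rfl
  δ_ac _ _ := rfl
  θ_pos Q := L_pos hA Q
  big Q := by
    unfold Cell.L Cell.g
    omega
  disp Q k x hk hk1 hx := by
    obtain ⟨c, hc, δ, rfl⟩ := ex_tc Q
    rw [KT_iff (hB c hc)] at hk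
    have h1 := (hB c hc).disp _ hx _ (K_le_P (hB c hc) hk) (by
      intro h
      apply hk1
      have : k = δ⁻¹ * (δ * k * δ⁻¹) * δ := by group
      rw [this, h]
      simp)
    have e : x * δ⁻¹ * (x * δ⁻¹ * (δ * k * δ⁻¹))⁻¹ = x * (x * k)⁻¹ := by group
    rw [e] at h1
    rw [ht.d_eq]
    exact h1
  cov Q x y hx hy := by
    obtain ⟨c, hc, δ, rfl⟩ := ex_tc Q
    obtain ⟨k, hk, h⟩ := (hB c hc).covP _ ((hA.ok c hc).sub _ hx) _ ((hA.ok c hc).sub _ hy)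
    refine ⟨δ⁻¹ * k * δ, (KT_iff (hB c hc) hc _ _).2 (by simpa [mul_assoc] using hk), ?_⟩
    have e : x * δ⁻¹ * (y * δ⁻¹ * k)⁻¹ = x * (y * (δ⁻¹ * k * δ))⁻¹ := by group
    rw [e] at h
    rw [ht.d_eq]
    exact h
  ax1 Q a c c' hn hc hc' := by
    have g1 := (ht.gate _ (conn_cell hB Q).1 (conn_cell hB Q).2 c).choose_spec
    have g2 := (ht.gate _ (conn_cell hB Q).1 (conn_cell hB Q).2 c').choose_spec
    have h1 := hp.gate_W _ _ _ _ _ g1 g2
    have h2 : w.d c c' ≤ 1 := by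
      obtain ⟨x, s⟩ := a
      rw [ht.car_eq] at hc hc'
      have h3 : w.d x (FreeGroup.of s * x) = 1 := by
        unfold PreWS.d
        rw [ht.W_edge, Finset.card_singleton]
      rcases hc with rfl | hc <;> rcases hc' with rfl | hc'
      · rw [(hp.d_zero _ _).2 rfl]; omega
      · rw [Set.mem_singleton_iff.1 hc', h3]
      · rw [Set.mem_singleton_iff.1 hc, hp.d_comm, h3]
      · rw [Set.mem_singleton_iff.1 hc, Set.mem_singleton_iff.1 hc', (hp.d_zero _ _).2 rfl]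
        omega
    refine le_trans (le_trans ?_ h2) (L_pos hA Q)
    exact Finset.card_le_card fun b hb => ((h1 b).1 hb).1
  ax2 Q Q' c c' hne hc hc' := by
    have g1 := (ht.gate _ (conn_cell hB Q).1 (conn_cell hB Q).2 c).choose_spec
    have g2 := (ht.gate _ (conn_cell hB Q).1 (conn_cell hB Q).2 c').choose_spec
    generalize (ht.gate _ (conn_cell hB Q).1 (conn_cell hB Q).2 c).choose = u at g1 ⊢
    generalize (ht.gate _ (conn_cell hB Q).1 (conn_cell hB Q).2 c').choose = v at g2 ⊢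
    by_cases huv : u = v
    · rw [(hp.d_zero _ _).2 huv]; omega
    have hu : u ∈ Q'.1.2 := mem_of_cross ht (conn_cell hB Q').2 huv fun a ha =>
      ⟨c, hc, c', hc', ((hp.gate_W _ _ _ _ _ g1 g2 a).1 ha).1⟩
    have hv : v ∈ Q'.1.2 := mem_of_cross ht (conn_cell hB Q').2 (Ne.symm huv) fun a ha =>
      ⟨c', hc', c, hc, ((hp.gate_W _ _ _ _ _ g2 g1 a).1 ha).1⟩
    rw [hp.d_comm, ht.d_eq]
    exact overlap hA hB hne g1.1 g2.1 hu hv

end Tw

theorem pTW (hTree : StTree) (hPre : StPre) (hWS : StWS) (hBas : StBas) : StTW := by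
  intro P F hA
  have hB : ∀ c ∈ F, BasOut c := fun c hc =>
    hBas P c (by have := hA.j_big; omega) (hA.ok c hc)
  obtain ⟨w, ht⟩ := hTree P.S
  have hp := hPre _ _ w
  have ho := hWS _ _ _ (Tw.ws hA hB w ht hp)
  refine ⟨Tw.ws hA hB w ht hp, ht, hp, ho, fun _ => rfl, Tw.acT_tc,
    fun c hc => Tw.KT_iff (hB c hc) hc, fun _ => rfl, fun _ => rfl, fun _ => rfl, ?_⟩
  apply le_antisymm
  · refine iSup_le fun Q k hk => ?_
    obtain ⟨c, hc, δ, rfl⟩ := Tw.ex_tc Q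
    have h1 : δ * k * δ⁻¹ ∈ KG F :=
      Subgroup.subset_normalClosure ⟨c, hc, (Tw.KT_iff (hB c hc) hc δ k).1 hk⟩
    have := (KG_normal F).conj_mem _ h1 δ⁻¹
    simpa [mul_assoc] using this
  · have := ho.normal
    refine Subgroup.normalClosure_le_normal ?_
    rintro k ⟨c, hc, hk⟩
    have h1 : k ∈ Tw.KT (tc F c hc 1) := (Tw.KT_iff (hB c hc) hc 1 k).2 (by simpa using hk)
    exact (le_iSup (Tw.ws hA hB w ht hp).K (tc F c hc 1)) h1

end Pool.Agent.P.MP_9167e9_an
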